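import Pool.Agent.H64.TA5

set_option autoImplicit false

namespace Pool.Agent.Results.MP_eab3e1_ag.Counter

open Polynomial

/-- A derivation is locally nilpotent. -/
def IsLND {K B : Type} [Field K] [CommRing B] [Algebra K B] (D : Derivation K B B) : Prop :=
  ∀ b : B, ∃ n : ℕ, (⇑D)^[n] b = 0

/-- The modified Derksen invariant: the subalgebra generated by the kernels of all locally
nilpotent derivations that have a slice. -/
def HDstar (K B : Type) [Field K] [CommRing B] [Algebra K B] : Subalgebra K B :=
  Algebra.adjoin K {b : B | ∃ D : Derivation K B B, IsLND D ∧ (∃ s, D s = 1) ∧ D b = 0}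

/-- The ideal generated by the images of all locally nilpotent derivations. -/
def imageIdeal (K A : Type) [Field K] [CommRing A] [Algebra K A] : Ideal A :=
  Ideal.span {b : A | ∃ D : Derivation K A A, IsLND D ∧ ∃ f, b = D f}

lemma mem_of_aut {K A : Type} [Field K] [CommRing A] [Algebra K A] (E : A[X] ≃ₐ[K] A[X]) (a : A) :
    E (C a) ∈ HDstar K A[X] := by
  let D : Derivation K A[X] A[X] := Derivation.mk'
    (E.toLinearMap ∘ₗ (derivative.restrictScalars K) ∘ₗ E.symm.toLinearMap) (fun p q => by
      simp [derivative_mul]; ring)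
  have hD : ∀ b, D b = E (derivative (E.symm b)) := fun b => rfl
  refine Algebra.subset_adjoin ⟨D, fun b => ?_, ⟨E X, by simp [hD]⟩, by simp [hD]⟩
  have : ∀ n : ℕ, (⇑D)^[n] b = E (derivative^[n] (E.symm b)) := by
    intro n
    induction n with
    | zero => simp
    | succ n ih => rw [Function.iterate_succ_apply', ih, hD, Function.iterate_succ_apply']; simp
  exact ⟨_, by rw [this, iterate_derivative_eq_zero (Nat.lt_succ_self _), map_zero]⟩

open H64.TB in
lemma image_le {K : Type} [Field K] [CharZero K] {S : Subalgebra K (R K)} (hS : Good S) :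
    imageIdeal K S ≤ RingHom.ker ((ev (-1) 0).comp S.val) :=
  Ideal.span_le.2 (by
    rintro b ⟨D, hD, f, rfl⟩
    exact vanish hS D hD f)

open H64.TB in
/-- Over every field of characteristic zero there is a finitely generated subalgebra `A` of
`K[s, v]` of type B whose cylinder has modified Derksen invariant different from
`A ⊕ ⨁_{i>0} I u^i`. -/
theorem result (K : Type) [Field K] [CharZero K] :
    ∃ A : Subalgebra K (MvPolynomial (Fin 2) K), A.FG ∧
      (∃ D : Derivation K A A, IsLND D ∧ D ≠ 0) ∧ HDstar K A[X] ≠ ⊤ ∧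
      (HDstar K A[X] : Set A[X]) ≠ {F | ∀ i, 0 < i → F.coeff i ∈ imageIdeal K A} := by
  refine ⟨A2, A2_fg, nonrigid good2, fun e => ?_, fun e => ?_⟩
  · have : HDstar K (A2 : Subalgebra K (R K))[X] ≤ (⊥ : Subalgebra K K[X]).comap rho2 :=
      Algebra.adjoin_le fun b ⟨D, _, hs, hb⟩ => ker_const2 D hs hb
    obtain ⟨c, hc⟩ := Algebra.mem_bot.1 (this (x := X) (e ▸ Algebra.mem_top))
    have := congrArg (fun p => coeff p 1) hc
    simp [rho2] at this
  · obtain ⟨a, ha, hne⟩ := extra (K := K) _ mem_of_aut
    have h1 : C a * X ∈ (HDstar K (A2 : Subalgebra K (R K))[X] : Set _) := ha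
    rw [e] at h1
    have := image_le good2 (h1 1 one_pos)
    rw [coeff_C_mul, coeff_X_one, mul_one] at this
    exact hne this

end Pool.Agent.Results.MP_eab3e1_ag.Counter
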